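import Pool.Agent.Y802.TS.Stm

/-!
# Project TS: groups of unipotent matrices
-/

set_option autoImplicit false

namespace Pool.Agent.Y759.TS

open Matrix Module Pool.Agent.Y802.TS

theorem trace_uni {k V : Type} [Field k] [AddCommGroup V] [Module k V] [FiniteDimensional k V]
    {f : Module.End k V} (hf : IsNilpotent (f - 1)) :
    LinearMap.trace k V f = LinearMap.trace k V 1 := by
  have h1 := (LinearMap.isNilpotent_trace_of_isNilpotent hf).eq_zero
  rw [map_sub, sub_eq_zero] at h1
  exact h1

/-- an irreducible group of unipotent maps is trivial -/
theorem irr_trivial {k V G : Type} [Field k] [IsAlgClosed k] [Group G] [AddCommGroup V]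
    [Module k V] [FiniteDimensional k V] [Nontrivial V] (φ : G →* Module.End k V)
    (hφ : ∀ g, IsNilpotent (φ g - 1))
    (hirr : ∀ W : Submodule k V, (∀ g, ∀ w ∈ W, φ g w ∈ W) → W = ⊥ ∨ W = ⊤) (g : G) :
    φ g = 1 := by
  classical
  set R : Subalgebra k (Module.End k V) := Algebra.adjoin k (Set.range φ) with hR
  have hsm : ∀ (r : R) (w : V), r • w = r.1 w := fun r w => rfl
  have hsimple : IsSimpleModule R V := by
    have h0 : ∀ U : Submodule R V, U = ⊥ ∨ U = ⊤ := by
      intro U
      rcases hirr (U.restrictScalars k) (fun g w hw => by
        have h1 : (⟨φ g, Algebra.subset_adjoin ⟨g, rfl⟩⟩ : R) • w ∈ U := U.smul_mem _ hw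
        exact h1) with h1 | h1
      · left
        rw [eq_bot_iff]
        intro x hx
        have h2 : x ∈ U.restrictScalars k := hx
        rw [h1] at h2
        exact h2
      · right
        rw [eq_top_iff]
        intro x _
        have h2 : x ∈ U.restrictScalars k := by
          rw [h1]
          trivial
        exact h2
    rw [isSimpleModule_iff]
    exact { eq_bot_or_eq_top := h0 }
  -- every linear map belongs to `R`
  have hall : ∀ Z : Module.End k V, Z ∈ R := by
    intro Z
    let f : Module.End (Module.End R V) V :=
      { toFun := fun w => Z w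
        map_add' := map_add Z
        map_smul' := by
          intro P w
          let P' : Module.End k V :=
            { toFun := fun w => P w
              map_add' := map_add P
              map_smul' := fun c w => by
                have h1 : c • w = (algebraMap k R c) • w := by
                  rw [hsm]
                  rfl
                have h2 : c • P w = (algebraMap k R c) • P w := by
                  rw [hsm]
                  rfl
                rw [h1, map_smul, RingHom.id_apply, h2] }
          obtain ⟨c, hc⟩ := Module.End.exists_eigenvalue P'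
          have hst := hirr (Module.End.eigenspace P' c) (fun g w hw => by
            rw [Module.End.mem_eigenspace_iff] at hw ⊢
            have h2 : P' (φ g w) = φ g (P' w) := by
              have h3 : φ g w = (⟨φ g, Algebra.subset_adjoin ⟨g, rfl⟩⟩ : R) • w := rfl
              have h4 : φ g (P' w) = (⟨φ g, Algebra.subset_adjoin ⟨g, rfl⟩⟩ : R) • P w := rfl
              rw [h4]
              change P (φ g w) = _
              rw [h3, map_smul]
            rw [h2, hw, map_smul])
          rcases hst with hst | hst
          · exact absurd hst hc
          · have h5 : ∀ x : V, P x = c • x := by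
              intro x
              have h6 : x ∈ Module.End.eigenspace P' c := by
                rw [hst]
                trivial
              rw [Module.End.mem_eigenspace_iff] at h6
              exact h6
            change Z (P w) = P (Z w)
            rw [h5, h5, map_smul] }
    obtain ⟨r, hr⟩ := jacobson_density (R := R) f (Finset.univ.image (Module.finBasis k V))
    have h1 : Z = r.1 := by
      refine (Module.finBasis k V).ext fun i => ?_
      exact hr (Module.finBasis k V i) (Finset.mem_image_of_mem _ (Finset.mem_univ i))
    rw [h1]
    exact r.2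
  -- the trace
  have hspan : ∀ Z : Module.End k V, Z ∈ Submodule.span k (Set.range φ) := by
    intro Z
    have h1 : Z ∈ Subalgebra.toSubmodule R := hall Z
    rw [hR, Algebra.adjoin_eq_span, ← MonoidHom.coe_mrange, Submonoid.closure_eq] at h1
    exact h1
  have htr : ∀ Z : Module.End k V, LinearMap.trace k V ((φ g - 1) * Z) = 0 := by
    intro Z
    induction hspan Z using Submodule.span_induction with
    | mem x hx =>
      obtain ⟨h, rfl⟩ := hx
      rw [sub_mul, one_mul, ← map_mul, map_sub, trace_uni (hφ _), trace_uni (hφ _), sub_self]
    | zero => rw [mul_zero, map_zero]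
    | add x y _ _ hx hy => rw [mul_add, map_add, hx, hy, add_zero]
    | smul c x _ hx => rw [mul_smul_comm, map_smul, hx, smul_zero]
  ext v
  have h2 : ∀ f : Module.Dual k V, f ((φ g - 1) v) = 0 := by
    intro f
    have h3 := htr (f.smulRight v)
    have h4 : (φ g - 1) * (f.smulRight v : Module.End k V) = f.smulRight ((φ g - 1) v) := by
      ext w
      simp
    rw [h4, LinearMap.trace_smulRight] at h3
    exact h3
  have h5 := (Module.forall_dual_apply_eq_zero_iff k ((φ g - 1) v)).1 h2
  rw [LinearMap.sub_apply, sub_eq_zero] at h5
  exact h5

/-- a group of unipotent maps has a fixed vector -/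
theorem fixed_vec {k G : Type} [Field k] [IsAlgClosed k] [Group G] (d : ℕ) :
    ∀ (V : Type) [AddCommGroup V] [Module k V] [FiniteDimensional k V] [Nontrivial V]
      (φ : G →* Module.End k V), (∀ g, IsNilpotent (φ g - 1)) → Module.finrank k V ≤ d →
      ∃ v : V, v ≠ 0 ∧ ∀ g, φ g v = v := by
  induction d with
  | zero =>
    intro V _ _ _ _ φ _ hV
    have h1 := Module.finrank_pos (R := k) (M := V)
    omega
  | succ d ih =>
    intro V _ _ _ _ φ hφ hV
    by_cases hirr : ∀ W : Submodule k V, (∀ g, ∀ w ∈ W, φ g w ∈ W) → W = ⊥ ∨ W = ⊤
    · obtain ⟨v, hv⟩ := exists_ne (0 : V)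
      refine ⟨v, hv, fun g => ?_⟩
      rw [irr_trivial φ hφ hirr g]
      rfl
    · push Not at hirr
      obtain ⟨W, hW, hW0, hW1⟩ := hirr
      have hnt : Nontrivial W := Submodule.nontrivial_iff_ne_bot.2 hW0
      let ψ : G →* Module.End k W :=
        { toFun := fun g => (φ g).restrict (hW g)
          map_one' := by
            ext x
            simp
          map_mul' := by
            intro a b
            ext x
            simp }
      have hψ : ∀ g (x : W), (ψ g x : V) = φ g x := fun g x => rfl
      have hnil : ∀ g, IsNilpotent (ψ g - 1) := by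
        intro g
        obtain ⟨r, hr⟩ := hφ g
        refine ⟨r, ?_⟩
        have h1 : ∀ (r : ℕ) (x : W), (((ψ g - 1) ^ r) x : V) = ((φ g - 1) ^ r) x := by
          intro r
          induction r with
          | zero => intro x; rfl
          | succ r ihr =>
            intro x
            rw [pow_succ, pow_succ, Module.End.mul_apply, Module.End.mul_apply, ihr]
            rfl
        ext x
        rw [h1, hr]
        rfl
      have hfr : Module.finrank k W ≤ d := by
        have h1 := Submodule.finrank_lt hW1
        omega
      obtain ⟨v, hv, hv1⟩ := ih W ψ hnil hfr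
      refine ⟨v, fun h => hv (Subtype.ext h), fun g => ?_⟩
      rw [← hψ, hv1]

theorem prod_zero {k G : Type} [Field k] [IsAlgClosed k] [Group G] (d : ℕ) :
    ∀ (V : Type) [AddCommGroup V] [Module k V] [FiniteDimensional k V]
    (φ : G →* Module.End k V), (∀ g, IsNilpotent (φ g - 1)) → Module.finrank k V ≤ d →
    ∀ l : List G, l.length = d → (l.map fun g => φ g - 1).prod = 0 := by
  induction d with
  | zero =>
    intro V _ _ _ φ _ hV l hl
    have hs : Subsingleton V := by
      have h0 : Module.finrank k V = 0 := by omega
      exact Module.finrank_zero_iff.1 h0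
    ext v
    exact Subsingleton.elim _ _
  | succ d ih =>
    intro V _ _ _ φ hφ hV l hl
    rcases subsingleton_or_nontrivial V with hs | hs
    · ext v
      exact Subsingleton.elim _ _
    · obtain ⟨v, hv0, hv⟩ := fixed_vec (d + 1) V φ hφ hV
      obtain ⟨g, l', rfl⟩ : ∃ g l', l = g :: l' := by
        cases l with
        | nil => simp at hl
        | cons g l' => exact ⟨g, l', rfl⟩
      have hl' : l'.length = d := by simpa using hl
      set W : Submodule k V := Submodule.span k {v} with hW
      have hinv : ∀ g, W ≤ W.comap (φ g) := by
        intro g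
        rw [hW, Submodule.span_le]
        intro x hx
        rw [Set.mem_singleton_iff] at hx
        subst hx
        show φ g x ∈ Submodule.span k {x}
        rw [hv g]
        exact Submodule.mem_span_singleton_self x
      let ψ : G →* Module.End k (V ⧸ W) :=
        { toFun := fun g => W.mapQ W (φ g) (hinv g)
          map_one' := by
            ext x
            simp
          map_mul' := by
            intro a b
            ext x
            simp }
      have hψ : ∀ g x, ψ g (W.mkQ x) = W.mkQ (φ g x) := fun g x => rfl
      have hψ1 : ∀ g x, (ψ g - 1) (W.mkQ x) = W.mkQ ((φ g - 1) x) := by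
        intro g x
        rw [LinearMap.sub_apply, LinearMap.sub_apply, hψ, map_sub]
        rfl
      have hnil : ∀ g, IsNilpotent (ψ g - 1) := by
        intro g
        obtain ⟨r, hr⟩ := hφ g
        refine ⟨r, ?_⟩
        have h1 : ∀ (r : ℕ) (x : V), ((ψ g - 1) ^ r) (W.mkQ x) = W.mkQ (((φ g - 1) ^ r) x) := by
          intro r
          induction r with
          | zero => intro x; rfl
          | succ r ihr =>
            intro x
            rw [pow_succ, pow_succ, Module.End.mul_apply, Module.End.mul_apply, hψ1, ihr]
        ext x
        change ((ψ g - 1) ^ r) (W.mkQ x) = 0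
        rw [h1, hr, LinearMap.zero_apply, map_zero]
      have hfr : Module.finrank k (V ⧸ W) ≤ d := by
        have h1 := Submodule.finrank_quotient_add_finrank W
        have h2 : Module.finrank k W = 1 := finrank_span_singleton hv0
        omega
      have h3 := ih (V ⧸ W) ψ hnil hfr l' hl'
      have h4 : ∀ (l : List G) (x : V),
          (l.map fun g => ψ g - 1).prod (W.mkQ x) = W.mkQ ((l.map fun g => φ g - 1).prod x) := by
        intro l
        induction l with
        | nil => intro x; rfl
        | cons a l ihl =>
          intro x
          rw [List.map_cons, List.prod_cons, List.map_cons, List.prod_cons, Module.End.mul_apply,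
            Module.End.mul_apply, ihl, hψ1]
      ext x
      have h5 : (l'.map fun g => φ g - 1).prod x ∈ W := by
        have h6 := h4 l' x
        rw [h3, LinearMap.zero_apply] at h6
        rw [← Submodule.ker_mkQ W]
        exact h6.symm
      rw [List.map_cons, List.prod_cons, Module.End.mul_apply, LinearMap.zero_apply]
      obtain ⟨c, hc⟩ := Submodule.mem_span_singleton.1 h5
      rw [← hc, LinearMap.sub_apply, map_smul, hv g]
      exact sub_self _

/-- **Kolchin's theorem** -/
theorem t_KOL : S_KOL := by
  intro k _ G _ n ρ hρ g
  set i := algebraMap k (AlgebraicClosure k) with hi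
  let φ : G →* Module.End (AlgebraicClosure k) (Fin n → AlgebraicClosure k) :=
    ((Matrix.toLinAlgEquiv' : Matrix (Fin n) (Fin n) (AlgebraicClosure k)
      ≃ₐ[AlgebraicClosure k] _) :
      Matrix (Fin n) (Fin n) (AlgebraicClosure k) →*
        Module.End (AlgebraicClosure k) (Fin n → AlgebraicClosure k)).comp
      ((i.mapMatrix : Matrix (Fin n) (Fin n) k →+* Matrix (Fin n) (Fin n) (AlgebraicClosure k)) :
        Matrix (Fin n) (Fin n) k →* _) |>.comp ((Units.coeHom _).comp ρ)
  have hφ : ∀ g : G, φ g - 1 =
      Matrix.toLinAlgEquiv' (i.mapMatrix ((ρ g : Matrix (Fin n) (Fin n) k) - 1)) := by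
    intro g
    rw [map_sub, map_sub, map_one, map_one]
    rfl
  have hnil : ∀ g, IsNilpotent (φ g - 1) := by
    intro g
    obtain ⟨r, hr⟩ := hρ g
    refine ⟨r, ?_⟩
    rw [hφ, ← map_pow, ← map_pow, hr, map_zero, map_zero]
  have h1 := prod_zero n (Fin n → AlgebraicClosure k) φ hnil (by simp) (List.ofFn g) (by simp)
  have h2 : Matrix.toLinAlgEquiv' (i.mapMatrix
      ((List.ofFn fun i => (ρ (g i) : Matrix (Fin n) (Fin n) k) - 1).prod)) = 0 := by
    rw [map_list_prod, map_list_prod, ← h1, List.map_ofFn, List.map_ofFn, List.map_ofFn]
    congr 2
    funext j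
    simp only [Function.comp_apply]
    rw [hφ]
  have h3 := (map_eq_zero_iff _ (Matrix.toLinAlgEquiv' : Matrix (Fin n) (Fin n)
    (AlgebraicClosure k) ≃ₐ[AlgebraicClosure k] _).injective).1 h2
  ext a b
  have h4 := congrFun (congrFun h3 a) b
  have h5 : i (((List.ofFn fun i => (ρ (g i) : Matrix (Fin n) (Fin n) k) - 1).prod) a b) = 0 := h4
  exact (map_eq_zero i).1 h5

end Pool.Agent.Y759.TS
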